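import Pool.Agent.helper52.WP.SpecA

set_option autoImplicit false

open Complex Metric Set Filter Topology MeasureTheory
open V3S (UF)
open WP

noncomputable section

namespace WPA

theorem ESC_eval (n : ℕ) (c z : ℂ) : (GR.fp n c).eval z = z ^ n + c := by
  simp [GR.fp]

theorem ESC_step (n : ℕ) (c z : ℂ) (hn : 2 ≤ n) (hc : ‖c‖ ≤ 2) (hz : 4 ≤ ‖z‖) :
    3 * ‖z‖ ≤ ‖z ^ n + c‖ := by
  have h1 : ‖z ^ n‖ ≤ ‖z ^ n + c‖ + ‖c‖ := by
    calc ‖z ^ n‖ = ‖(z ^ n + c) - c‖ := by rw [add_sub_cancel_right]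
      _ ≤ _ := norm_sub_le _ _
  rw [norm_pow] at h1
  have h2 : ‖z‖ ^ 2 ≤ ‖z‖ ^ n := pow_le_pow_right₀ (by linarith) hn
  nlinarith

theorem ESC : ESC_stmt := by
  intro n c hn hc
  have hit : ∀ (j : ℕ) (z : ℂ), it (GR.fp n c) j z = (fun z : ℂ => z ^ n + c)^[j] z := by
    intro j z
    unfold it
    have e : (fun z => (GR.fp n c).eval z) = fun z : ℂ => z ^ n + c := by
      funext z
      exact ESC_eval n c z
    rw [e]
  refine ⟨?_, hit, ?_, ?_⟩
  · unfold GR.fp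
    exact Polynomial.natDegree_X_pow_add_C
  · intro z j hz hj
    rw [hit]
    induction j, hj using Nat.le_induction with
    | base =>
      rw [Function.iterate_one]
      exact ESC_step n c z hn hc hz
    | succ j _ ih =>
      rw [Function.iterate_succ_apply']
      have h1 := ESC_step n c ((fun z : ℂ => z ^ n + c)^[j] z) hn hc (by linarith)
      have h2 : 3 * ‖z‖ ≤ 3 * ‖(fun z : ℂ => z ^ n + c)^[j] z‖ := by linarith [norm_nonneg z]
      exact h2.trans h1
  · intro k w s hk hinj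
    by_contra hcon
    push Not at hcon
    have hn0 : n ≠ 0 := by omega
    have hprim := Complex.isPrimitiveRoot_exp n hn0
    have hne : Complex.exp (2 * Real.pi * Complex.I / n) ≠ 1 := hprim.ne_one (by omega)
    have hpow := hprim.pow_eq_one
    generalize Complex.exp (2 * Real.pi * Complex.I / n) = ω at hne hpow
    have hnorm : ‖ω‖ = 1 := Complex.norm_eq_one_of_pow_eq_one hpow hn0
    have hd : 0 < (s - ‖w‖) / 2 := by linarith
    have hx : ∀ x : ℂ, ‖x‖ = (s - ‖w‖) / 2 → x ∈ ball w s := by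
      intro x hx
      rw [mem_ball, dist_eq_norm]
      calc ‖x - w‖ ≤ ‖x‖ + ‖w‖ := norm_sub_le _ _
        _ < s := by rw [hx]; linarith
    have hz1 : ‖(((s - ‖w‖) / 2 : ℝ) : ℂ)‖ = (s - ‖w‖) / 2 := by
      rw [Complex.norm_real, Real.norm_eq_abs, abs_of_pos hd]
    have hz2 : ‖ω * (((s - ‖w‖) / 2 : ℝ) : ℂ)‖ = (s - ‖w‖) / 2 := by
      rw [norm_mul, hnorm, one_mul, hz1]
    have heq : it (GR.fp n c) k (ω * (((s - ‖w‖) / 2 : ℝ) : ℂ)) =
        it (GR.fp n c) k (((s - ‖w‖) / 2 : ℝ) : ℂ) := by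
      obtain ⟨j, rfl⟩ : ∃ j, k = j + 1 := ⟨k - 1, by omega⟩
      rw [hit, hit, Function.iterate_succ_apply, Function.iterate_succ_apply]
      simp only [mul_pow, hpow, one_mul]
    have h1 := hinj (hx _ hz2) (hx _ hz1) heq
    have h2 : (((s - ‖w‖) / 2 : ℝ) : ℂ) ≠ 0 := by
      intro h3
      rw [h3, norm_zero] at hz1
      linarith
    exact hne (mul_eq_right₀ h2 |>.1 h1)

end WPA
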