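import Pool.Agent.helper52.WP.SpecL

set_option autoImplicit false

open Complex Metric Set Filter Topology MeasureTheory
open V3S (UF)
open WP

noncomputable section

namespace WPL

theorem EXB_real (s g B : ℝ) (hs : 0 < s) (_hg : 0 ≤ g) (h1 : g ^ 2 * B ≤ 2) (h2 : 0.8 ≤ B * s ^ 2) :
    g ≤ 1.6 * s := by
  have hB : 0 < B := by
    by_contra h
    push Not at h
    have : B * s ^ 2 ≤ 0 := mul_nonpos_of_nonpos_of_nonneg h (sq_nonneg _)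
    norm_num at h2
    linarith
  by_contra h
  push Not at h
  have h3 : (1.6 * s) ^ 2 < g ^ 2 := by
    apply pow_lt_pow_left₀ h (by positivity)
    norm_num
  have h4 : (1.6 * s) ^ 2 * B < g ^ 2 * B := mul_lt_mul_of_pos_right h3 hB
  have h5 : (1.6 * s) ^ 2 * B = 2.56 * (B * s ^ 2) := by ring
  have h6 : (2.56 : ℝ) * 0.8 ≤ 2.56 * (B * s ^ 2) := mul_le_mul_of_nonneg_left h2 (by norm_num)
  norm_num at h6 h5
  linarith

theorem EXB (hCAF : XPL.CAF_stmt) (hCB1 : WPC.CB1_stmt) (hCB2 : WPC.CB2_stmt) (hADH : ADH_stmt)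
    (hNPK : V3.NPK_stmt) (hLV : WPS.LVX_stmt) : EXB_stmt := by
  classical
  intro C₀ C hC₀ hC
  obtain ⟨c₀, hc₀, _K, -, hall⟩ := hCB2 C₀ hC₀
  set R : ℝ := (8 + 1.6 * C) * C + 1 with hR
  have hC0 : 0 < C := by linarith
  have hC₀0 : 0 < C₀ := by linarith
  have hR0 : 0 < R := by rw [hR]; positivity
  refine ⟨⌈(1 + 2 * R / c₀) ^ 2⌉₊, ?_⟩
  intro n A D hD y h r χ G hh hh1 hr hnat hχ0 haff hsg hlev _hG0 hsum hkc
  obtain ⟨hsg0, -, hxz, -⟩ := hCB1 D hD.rho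
  obtain ⟨-, -, -, -, -, hsep, -⟩ := hall n A D hD
  obtain ⟨hs0, -, -, -, hBB, -⟩ := hCAF D.PP D.H χ (16 * h) (by positivity) hnat haff
  obtain ⟨hAD, -⟩ := hADH n C₀ A D hD
  have hs : 0 < ‖deriv χ 0‖ := norm_pos_iff.2 hs0
  have hsgp : 0 < ‖D.sg‖ := norm_pos_iff.2 hsg0
  obtain ⟨-, -, -, htau, -⟩ := hLV D.f D.PP D.H G (ball 0 r) D.k hAD isOpen_ball hlev
  have hlev0 : ∀ q, 0 ≤ XPS.lev D.H G q 0 := fun q => norm_nonneg _
  -- the bound for each label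
  have key : ∀ q : ℕ, 1 ≤ q → q < D.k → ‖G q 0 - χ 0‖ < 8 * h * ‖deriv χ 0‖ →
      ‖D.F (D.k - q) 0 - y‖ < R := by
    intro q hq1 hqk hq
    have h1 : ‖XPS.tau D.H G q 0 - 1‖ ≤ 1 := by
      refine (htau q hqk.le 0 (mem_ball_self hr)).trans ?_
      refine le_trans ?_ hsum
      refine Finset.sum_le_sum_of_subset_of_nonneg ?_ (fun i _ _ => hlev0 i)
      exact Finset.Icc_subset_Icc_right hqk.le
    have h2 : ‖XPS.tau D.H G q 0‖ ≤ 2 := by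
      calc ‖XPS.tau D.H G q 0‖ = ‖(XPS.tau D.H G q 0 - 1) + 1‖ := by rw [sub_add_cancel]
        _ ≤ ‖XPS.tau D.H G q 0 - 1‖ + ‖(1 : ℂ)‖ := norm_add_le _ _
        _ ≤ 2 := by rw [norm_one]; linarith
    have h3 : ‖deriv (G q) 0‖ ^ 2 * ‖D.H (G q 0)‖ ≤ 2 := by
      have h4 : XPS.tau D.H G q 0 = deriv (G q) 0 ^ 2 * D.H (G q 0) := rfl
      rw [h4, norm_mul, norm_pow] at h2
      exact h2
    have h5 : G q 0 ∈ ball (χ 0) (9 / 10 * (16 * h) * ‖deriv χ 0‖) := by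
      rw [mem_ball, dist_eq_norm]
      refine hq.trans_le ?_
      refine mul_le_mul_of_nonneg_right ?_ hs.le
      linarith
    have h6 := (hBB (G q 0) h5).1
    have h7 : ‖deriv (G q) 0‖ ≤ 1.6 * ‖deriv χ 0‖ :=
      EXB_real _ _ _ hs (norm_nonneg _) h3 h6
    have h8 : ‖G q 0 - D.zz (D.F (D.k - q) 0)‖ ≤ C * (1.6 * ‖deriv χ 0‖) :=
      (hkc q hq1 hqk.le).trans (mul_le_mul_of_nonneg_left h7 hC0.le)
    have h9 : ‖D.zz (D.F (D.k - q) 0) - χ 0‖ ≤ (8 + 1.6 * C) * ‖deriv χ 0‖ := by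
      calc ‖D.zz (D.F (D.k - q) 0) - χ 0‖
          = ‖(G q 0 - χ 0) - (G q 0 - D.zz (D.F (D.k - q) 0))‖ := by congr 1; ring
        _ ≤ ‖G q 0 - χ 0‖ + ‖G q 0 - D.zz (D.F (D.k - q) 0)‖ := norm_sub_le _ _
        _ ≤ 8 * h * ‖deriv χ 0‖ + C * (1.6 * ‖deriv χ 0‖) := add_le_add hq.le h8
        _ ≤ 8 * 1 * ‖deriv χ 0‖ + C * (1.6 * ‖deriv χ 0‖) := by
            have : 8 * h * ‖deriv χ 0‖ ≤ 8 * 1 * ‖deriv χ 0‖ :=
              mul_le_mul_of_nonneg_right (by linarith) hs.le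
            linarith
        _ = (8 + 1.6 * C) * ‖deriv χ 0‖ := by ring
    have h10 : D.F (D.k - q) 0 - y = (D.zz (D.F (D.k - q) 0) - χ 0) / D.sg := by
      rw [hχ0, eq_div_iff hsg0]
      simp only [Dat.zz]
      ring
    have h12 : ‖D.F (D.k - q) 0 - y‖ ≤ (8 + 1.6 * C) * C := by
      rw [h10, norm_div, div_le_iff₀ hsgp]
      calc ‖D.zz (D.F (D.k - q) 0) - χ 0‖ ≤ (8 + 1.6 * C) * ‖deriv χ 0‖ := h9
        _ ≤ (8 + 1.6 * C) * (C * ‖D.sg‖) := mul_le_mul_of_nonneg_left hsg (by positivity)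
        _ = (8 + 1.6 * C) * C * ‖D.sg‖ := by ring
    rw [hR]
    linarith
  let T : Finset ℕ := (Finset.range D.k).filter
    (fun q => 1 ≤ q ∧ q < D.k ∧ ‖G q 0 - χ 0‖ < 8 * h * ‖deriv χ 0‖)
  have hT : {q : ℕ | 1 ≤ q ∧ q < D.k ∧ ‖G q 0 - χ 0‖ < 8 * h * ‖deriv χ 0‖} = (T : Set ℕ) := by
    ext q
    simp only [T, Finset.coe_filter, Finset.mem_range]
    constructor
    · intro hq
      exact ⟨hq.2.1, hq⟩
    · intro hq
      exact hq.2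
  rw [hT, Set.ncard_coe_finset]
  have hmem : ∀ q ∈ T, 1 ≤ q ∧ q < D.k ∧ ‖G q 0 - χ 0‖ < 8 * h * ‖deriv χ 0‖ := by
    intro q hq
    exact (Finset.mem_filter.1 hq).2
  have hN := hNPK ℕ (fun q => D.F (D.k - q) 0 - y) T c₀ R hc₀ hR0 ?_ ?_
  · have h1 : (T.card : ℝ) ≤ (⌈(1 + 2 * R / c₀) ^ 2⌉₊ : ℝ) := hN.trans (Nat.le_ceil _)
    exact_mod_cast h1
  · intro i hi l hl hil
    have hi' := hmem i hi
    have hl' := hmem l hl
    have h0 : (0 : ℂ) ∈ ball (0 : ℂ) (1 / (2 * C₀)) := mem_ball_self (by positivity)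
    have h1 := hsep (D.k - i) (by omega) (D.k - l) (by omega) (by omega) 0 h0 0 h0
    have h2 : (D.F (D.k - i) 0 - y) - (D.F (D.k - l) 0 - y) = D.F (D.k - i) 0 - D.F (D.k - l) 0 := by ring
    simp only [h2]
    exact h1
  · intro i hi
    have h1 := hmem i hi
    exact key i h1.1 h1.2.1 h1.2.2

end WPL
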