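import Pool.Agent.helper52.WP.SpecA

set_option autoImplicit false

open Complex Metric Set Filter Topology MeasureTheory
open V3S (UF)
open WP

noncomputable section

namespace WPA

open Polynomial in
theorem POL_div (p : Polynomial ℂ) (a : ℂ) (ha : p.eval a = 0) :
    (X - C a) * (p /ₘ (X - C a)) = p ∧ (p /ₘ (X - C a)).eval a = p.derivative.eval a := by
  have h1 : (X - C a) * (p /ₘ (X - C a)) = p := mul_divByMonic_eq_iff_isRoot.2 ha
  refine ⟨h1, ?_⟩
  have h2 : p.derivative = derivative ((X - C a) * (p /ₘ (X - C a))) := by rw [h1]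
  rw [h2, derivative_mul]
  simp

open Polynomial in
theorem POL_one (p : Polynomial ℂ) (a : ℂ) (ha : p.eval a = 0) (K : Set ℂ) (δ : ℝ) (hδ : 0 < δ)
    (hd : δ ≤ ‖p.derivative.eval a‖) (hK : IsCompact K)
    (h : ∀ z ∈ K, z ≠ a ∧ ‖p.eval z‖ ≤ δ / 2 * ‖z - a‖) (η : ℝ) (hη : 0 < η) :
    ∃ Q : Polynomial ℂ, ∀ z ∈ K, ‖1 / (p.derivative.eval a * (z - a)) - Q.eval z‖ ≤ η := by
  rcases K.eq_empty_or_nonempty with rfl | hne
  · exact ⟨0, fun z hz => absurd hz (by simp)⟩
  have haK : a ∉ K := fun hmem => (h a hmem).1 rfl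
  have hd0 : 0 < infDist a K := (hK.isClosed.notMem_iff_infDist_pos hne).1 haK
  have hdK : ∀ z ∈ K, infDist a K ≤ ‖z - a‖ := fun z hz => by
    rw [← dist_eq_norm, dist_comm]
    exact infDist_le_dist_of_mem hz
  obtain ⟨hP1, hP2⟩ := POL_div p a ha
  generalize p /ₘ (X - C a) = P at hP1 hP2
  have hPz : ∀ z, p.eval z = (z - a) * P.eval z := by
    intro z
    rw [← hP1]
    simp
  generalize p.derivative.eval a = D at hd hP2
  generalize infDist a K = d at hd0 hdK
  have hD0 : 0 < ‖D‖ := by linarith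
  have hD : D ≠ 0 := norm_pos_iff.1 hD0
  obtain ⟨M, hM⟩ := exists_pow_lt_of_lt_one (show 0 < η * (δ * d) by positivity)
    (show (1 / 2 : ℝ) < 1 by norm_num)
  have hT : (1 - (C D⁻¹ * P) ^ M : Polynomial ℂ).eval a = 0 := by
    simp [hP2, hD]
  obtain ⟨hQ1, -⟩ := POL_div _ a hT
  generalize (1 - (C D⁻¹ * P) ^ M : Polynomial ℂ) /ₘ (X - C a) = Q0 at hQ1
  have hQz : ∀ z, (z - a) * Q0.eval z = 1 - (D⁻¹ * P.eval z) ^ M := by
    intro z
    have h1 := congrArg (Polynomial.eval z) hQ1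
    simpa using h1
  refine ⟨C D⁻¹ * Q0, fun z hz => ?_⟩
  obtain ⟨hza, hzp⟩ := h z hz
  have hza' : z - a ≠ 0 := sub_ne_zero.2 hza
  have hzn : 0 < ‖z - a‖ := norm_pos_iff.2 hza'
  have e : 1 / (D * (z - a)) - (C D⁻¹ * Q0).eval z = (D⁻¹ * P.eval z) ^ M / (D * (z - a)) := by
    have h1 := hQz z
    rw [eval_mul, eval_C]
    have h2 : Q0.eval z = (1 - (D⁻¹ * P.eval z) ^ M) / (z - a) := by
      rw [← h1]
      field_simp
    rw [h2]
    field_simp
    ring
  rw [e, norm_div, norm_pow, norm_mul, norm_mul, norm_inv]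
  have hPn : ‖P.eval z‖ ≤ δ / 2 := by
    rw [hPz z, norm_mul] at hzp
    have h1 : ‖z - a‖ * ‖P.eval z‖ ≤ ‖z - a‖ * (δ / 2) := by linarith
    exact le_of_mul_le_mul_left h1 hzn
  have hr : ‖D‖⁻¹ * ‖P.eval z‖ ≤ 1 / 2 := by
    calc ‖D‖⁻¹ * ‖P.eval z‖ ≤ δ⁻¹ * (δ / 2) := by gcongr
      _ = 1 / 2 := by field_simp
  have h3 : (‖D‖⁻¹ * ‖P.eval z‖) ^ M ≤ (1 / 2) ^ M := pow_le_pow_left₀ (by positivity) hr M
  have h4 : δ * d ≤ ‖D‖ * ‖z - a‖ := mul_le_mul hd (hdK z hz) hd0.le (by positivity)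
  rw [div_le_iff₀ (by positivity)]
  calc (‖D‖⁻¹ * ‖P.eval z‖) ^ M ≤ (1 / 2) ^ M := h3
    _ ≤ η * (δ * d) := hM.le
    _ ≤ η * (‖D‖ * ‖z - a‖) := by gcongr

open Polynomial in
theorem POL_frac (p : Polynomial ℂ) (hp : 1 ≤ p.natDegree)
    (hs : ∀ a, p.eval a = 0 → p.derivative.eval a ≠ 0) (z : ℂ) (hz : p.eval z ≠ 0) :
    1 / p.eval z = ∑ a ∈ p.roots.toFinset, 1 / (p.derivative.eval a * (z - a)) := by
  have hp0 : p ≠ 0 := by
    rintro rfl
    simp at hp
  have hroot : ∀ a, a ∈ p.roots.toFinset ↔ p.eval a = 0 := by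
    intro a
    rw [Multiset.mem_toFinset, mem_roots hp0]
    rfl
  have hnd : p.roots.Nodup := by
    rw [Multiset.nodup_iff_count_le_one]
    intro a
    rw [count_roots]
    by_contra hcon
    push Not at hcon
    have h1 := (one_lt_rootMultiplicity_iff_isRoot hp0).1 hcon
    exact hs a h1.1 h1.2
  have hcard : p.roots.toFinset.card = p.natDegree := by
    rw [Multiset.toFinset_card_of_nodup hnd]
    exact splits_iff_card_roots.1 (IsAlgClosed.splits p)
  have hid : (∑ a ∈ p.roots.toFinset, C (p.derivative.eval a)⁻¹ * (p /ₘ (X - C a)) : Polynomial ℂ) = 1 := by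
    apply eq_of_degree_sub_lt_of_eval_finset_eq p.roots.toFinset
    · rw [hcard, ← mem_degreeLT]
      apply Submodule.sub_mem
      · apply Submodule.sum_mem
        intro a ha
        rw [← smul_eq_C_mul]
        refine Submodule.smul_mem _ _ (mem_degreeLT.2 ?_)
        rw [← degree_eq_natDegree hp0]
        exact degree_divByMonic_lt p (X - C a) hp0 (by rw [degree_X_sub_C]; norm_num)
      · rw [mem_degreeLT]
        refine lt_of_le_of_lt degree_one_le ?_
        exact_mod_cast hp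
    · intro b hb
      rw [eval_finsetSum, eval_one]
      rw [Finset.sum_eq_single b]
      · rw [eval_mul, eval_C, (POL_div p b ((hroot b).1 hb)).2]
        exact inv_mul_cancel₀ (hs b ((hroot b).1 hb))
      · intro a ha hab
        rw [eval_mul]
        have h1 := congrArg (Polynomial.eval b) (POL_div p a ((hroot a).1 ha)).1
        rw [eval_mul, (hroot b).1 hb] at h1
        have h2 : (X - C a : Polynomial ℂ).eval b ≠ 0 := by
          simpa [sub_eq_zero] using (Ne.symm hab)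
        have h3 : (p /ₘ (X - C a)).eval b = 0 := by
          rcases mul_eq_zero.1 h1 with h4 | h4
          · exact absurd h4 h2
          · exact h4
        rw [h3, mul_zero]
      · intro h1
        exact absurd hb h1
  have h1 := congrArg (Polynomial.eval z) hid
  rw [eval_finsetSum, eval_one] at h1
  have h0 : 1 / p.eval z = (∑ a ∈ p.roots.toFinset,
      (C (p.derivative.eval a)⁻¹ * (p /ₘ (X - C a)) : Polynomial ℂ).eval z) / p.eval z := by
    rw [h1]
  rw [h0, Finset.sum_div]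
  refine Finset.sum_congr rfl fun a ha => ?_
  have hza : z - a ≠ 0 := by
    intro h2
    rw [sub_eq_zero] at h2
    rw [h2] at hz
    exact hz ((hroot a).1 ha)
  have h2 := congrArg (Polynomial.eval z) (POL_div p a ((hroot a).1 ha)).1
  rw [eval_mul, eval_sub, eval_X, eval_C] at h2
  rw [eval_mul, eval_C]
  have hda := hs a ((hroot a).1 ha)
  rw [div_eq_div_iff hz (mul_ne_zero hda hza), one_mul, ← h2]
  field_simp

theorem POL : POL_stmt := by
  intro p K δ hδ hp hd hK h ε hε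
  have hp0 : p ≠ 0 := by
    rintro rfl
    simp at hp
  have hs : ∀ a, p.eval a = 0 → p.derivative.eval a ≠ 0 := by
    intro a ha h0
    have := hd a ha
    rw [h0, norm_zero] at this
    linarith
  have hroot : ∀ a, a ∈ p.roots.toFinset ↔ p.eval a = 0 := by
    intro a
    rw [Multiset.mem_toFinset, Polynomial.mem_roots hp0]
    rfl
  have hη : 0 < ε / (p.roots.toFinset.card + 1) := by positivity
  have hex : ∀ a : ℂ, ∃ Q : Polynomial ℂ, p.eval a = 0 →
      ∀ z ∈ K, ‖1 / (p.derivative.eval a * (z - a)) - Q.eval z‖ ≤ ε / (p.roots.toFinset.card + 1) := by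
    intro a
    by_cases ha : p.eval a = 0
    · obtain ⟨Q, hQ⟩ := POL_one p a ha K δ hδ (hd a ha) hK (fun z hz => h z hz a ha) _ hη
      exact ⟨Q, fun _ => hQ⟩
    · exact ⟨0, fun h1 => absurd h1 ha⟩
  choose Q hQ using hex
  refine ⟨∑ a ∈ p.roots.toFinset, Q a, fun z hz => ?_⟩
  have hpz : p.eval z ≠ 0 := fun h0 => (h z hz z h0).1 rfl
  rw [POL_frac p hp hs z hpz, Polynomial.eval_finsetSum, ← Finset.sum_sub_distrib]
  refine (norm_sum_le _ _).trans ((Finset.sum_le_sum fun a ha => hQ a ((hroot a).1 ha) z hz).trans ?_)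
  rw [Finset.sum_const, nsmul_eq_mul]
  have h1 : (p.roots.toFinset.card : ℝ) ≤ p.roots.toFinset.card + 1 := by linarith
  calc (p.roots.toFinset.card : ℝ) * (ε / (p.roots.toFinset.card + 1))
      ≤ (p.roots.toFinset.card + 1) * (ε / (p.roots.toFinset.card + 1)) := by gcongr
    _ = ε := by field_simp

end WPA
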