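import Pool.Agent.helper52.WP.SpecT

set_option autoImplicit false

open Complex Metric Set Filter Topology MeasureTheory
open V3S (UF)
open WP
open Pool.Agent.helper16.Multibrot

noncomputable section

namespace WPT

theorem WPF (hWPU : WPT.WPU_stmt) : WPF_stmt := by
  intro n c hn hc hall
  by_contra hcl
  have h1 : (closure (hyperbolic n))ᶜ ∈ 𝓝 c := isClosed_closure.isOpen_compl.mem_nhds hcl
  obtain ⟨r, hr, hr'⟩ := Metric.mem_nhds_iff.1 h1
  have hdis : Disjoint (ball c r) (hyperbolic n) := by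
    rw [Set.disjoint_left]
    intro x hx hxh
    exact hr' hx (subset_closure hxh)
  obtain ⟨ε₀, hε₀, hno⟩ := hWPU n hn r hr
  obtain ⟨k, w, ρ, hk, hρ, hinj, hctr, hder⟩ := hall ε₀ hε₀
  exact hno c hc hdis k w ρ hk hρ hinj hctr hder

end WPT
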